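import Pool.Agent.W_7d29a1_SL.N2

/-!
MP_7d29a1_pr, STORM Z, Lemma NS (1), TILT LLN: the free energy excess `LL μ t` of a tilt `t` with `|t| wd r` of the order of the unit
`EE r` is of the order `EE r / r`.
-/

namespace Pool.Agent.W_7d29a1_Z94

open MeasureTheory ProbabilityTheory Filter Topology
open Pool.Agent.W_7d29a1_F Pool.Agent.W_7d29a1_h4g Pool.Agent.W_7d29a1_G Pool.Agent.W_7d29a1_SR

noncomputable section

variable {μ : Measure ℝ} [IsProbabilityMeasure μ] {c C : ℝ} {n₀ : ℕ}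

/-- Lower bound of the excess. -/
theorem LL_low (h : In μ c C n₀) {c1 : ℝ} (hc1 : 0 < c1) : ∃ κ : ℝ, 0 < κ ∧ ∃ n₁ : ℕ, ∀ r : ℕ, n₁ ≤ r → ∀ t : ℝ,
    c1 * EE μ r ≤ |t| * wd μ r → κ * EE μ r ≤ r * LL μ t := by
  obtain ⟨K, a, v₀, hK, ha, ha1, hv₀, hv₀1, hJ⟩ := Pool.Agent.W_7d29a1_SL.n2_uv h
  obtain ⟨θ, hθ0, hθ1, hθ⟩ : ∃ θ : ℝ, 0 < θ ∧ θ ≤ 1 ∧ K * θ ^ a ≤ c1 / 2 := by
    have h1 : Tendsto (fun x : ℝ => K * x ^ a) (𝓝[>] 0) (𝓝 (K * 0)) := by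
      refine Tendsto.const_mul K ?_
      have h2 : Tendsto (fun x : ℝ => x ^ a) (𝓝 0) (𝓝 ((0 : ℝ) ^ a)) :=
        (Real.continuous_rpow_const ha.le).tendsto 0
      rw [Real.zero_rpow ha.ne'] at h2
      exact h2.mono_left nhdsWithin_le_nhds
    rw [mul_zero] at h1
    have h2 : ∀ᶠ x : ℝ in 𝓝[>] 0, K * x ^ a < c1 / 2 := h1.eventually (eventually_lt_nhds (by positivity))
    have h3 : ∀ᶠ x : ℝ in 𝓝[>] 0, x ≤ 1 := by
      filter_upwards [Ioc_mem_nhdsGT (show (0 : ℝ) < 1 by norm_num)] with x hx using hx.2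
    obtain ⟨x, ⟨hx1, hx2⟩, hx3⟩ := ((h2.and h3).and self_mem_nhdsWithin).exists
    exact ⟨x, hx3, hx2, hx1.le⟩
  obtain ⟨n₂, hn₂⟩ := eventually_atTop.1 (h.tv.eventually_le_const hv₀)
  refine ⟨c1 * θ / 2, by positivity, max n₂ 1, fun r hr t ht => ?_⟩
  have hr1 : 1 ≤ r := (le_max_right _ _).trans hr
  have hr0 : (0 : ℝ) < r := by exact_mod_cast hr1
  have hE0 : 0 < EE μ r := EE_pos r
  have hv := vA_pos (μ := μ) h.em (A := 1) one_pos r
  have hvv : vA μ 1 r ≤ v₀ := hn₂ r ((le_max_left _ _).trans hr)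
  have hmem := vA_mem (μ := μ) h.em (A := 1) zero_le_one r
  have hJv : r * J μ (vA μ 1 r) ≤ 1 * EE μ r := hmem
  have h1 := hJ (θ * vA μ 1 r) (vA μ 1 r) (by positivity) (by nlinarith) hvv
  rw [mul_div_assoc, div_self hv.ne', mul_one] at h1
  have h2 : r * J μ (θ * vA μ 1 r) ≤ K * θ ^ (1 + a) * EE μ r := by
    calc r * J μ (θ * vA μ 1 r) ≤ r * (K * θ ^ (1 + a) * J μ (vA μ 1 r)) := mul_le_mul_of_nonneg_left h1 hr0.le
      _ = K * θ ^ (1 + a) * (r * J μ (vA μ 1 r)) := by ring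
      _ ≤ K * θ ^ (1 + a) * (1 * EE μ r) := mul_le_mul_of_nonneg_left hJv (by positivity)
      _ = _ := by ring
  have h3 : K * θ ^ (1 + a) ≤ θ * (c1 / 2) := by
    rw [Real.rpow_add hθ0, Real.rpow_one]
    calc K * (θ * θ ^ a) = θ * (K * θ ^ a) := by ring
      _ ≤ θ * (c1 / 2) := mul_le_mul_of_nonneg_left hθ hθ0.le
  have h4 : |t| * (θ * vA μ 1 r) - LL μ |t| ≤ J μ (θ * vA μ 1 r) := by
    refine J_ge h.em ?_ _
    rw [abs_of_nonneg (by positivity)]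
    have := vA_le (μ := μ) h.em (A := 1) zero_le_one r
    nlinarith
  have h5 : LL μ |t| = LL μ t := by
    rcases le_total 0 t with h0 | h0
    · rw [abs_of_nonneg h0]
    · rw [abs_of_nonpos h0, LL_neg h.em]
  have h6 : |t| * wd μ r = r * (|t| * vA μ 1 r) := by
    unfold wd
    ring
  rw [h5] at h4
  have h7 : θ * (c1 * EE μ r) ≤ θ * (|t| * wd μ r) := mul_le_mul_of_nonneg_left ht hθ0.le
  have h8 : r * (|t| * (θ * vA μ 1 r)) = θ * (|t| * wd μ r) := by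
    rw [h6]
    ring
  have h9 := mul_le_mul_of_nonneg_left h4 hr0.le
  have h10 := mul_le_mul_of_nonneg_right h3 hE0.le
  nlinarith

end

end Pool.Agent.W_7d29a1_Z94
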