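import Pool.Agent.W_7d29a1_Z94.TiltC2

/-!
MP_7d29a1_pr, STORM Z, Lemma NS (1), TILT LLN: the lower tail. The free energy is at least the sum of the quenched averages of the
free energies of the slabs (Jensen); the truncated averages have exponential moments which multiply.
-/

namespace Pool.Agent.W_7d29a1_Z94

open MeasureTheory ProbabilityTheory Filter Topology
open Pool.Agent.W_7d29a1_F Pool.Agent.W_7d29a1_h4g Pool.Agent.W_7d29a1_G Pool.Agent.W_7d29a1_SR

noncomputable section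

variable {μ : Measure ℝ} [IsProbabilityMeasure μ] {c C : ℝ} {n₀ : ℕ}

/-- The truncated free energy. -/
def tV (μ : Measure ℝ) (t Λ : ℝ) (η : Env) (a : Pt) (n : ℕ) : ℝ := max (V μ t η a n) (-Λ)

/-- The sum of the truncated quenched averages over `k` slabs of height `m` and a last slab of height `m'`. -/
def DD (μ : Measure ℝ) (t Λ : ℝ) (m m' : ℕ) : ℕ → Pt → Env → ℝ
  | 0, a, η => tV μ t Λ η a m'
  | k + 1, a, η => tV μ t Λ η a m + (∑ y ∈ Finset.Icc (0 : ℤ) m, W μ t η a m y * DD μ t Λ m m' k (a.1 + m, a.2 + y) η) /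
      Real.exp (V μ t η a m)

variable {t Λ : ℝ} {m m' : ℕ}

omit [IsProbabilityMeasure μ] in
theorem measurable_tV [IsProbabilityMeasure μ] (a : Pt) (n : ℕ) : Measurable fun η => tV μ t Λ η a n :=
  (measurable_V a n).max measurable_const

theorem measurable_DD (k : ℕ) : ∀ a : Pt, Measurable (DD μ t Λ m m' k a) := by
  induction k with
  | zero => exact fun a => measurable_tV a m'
  | succ k ih =>
    intro a
    refine (measurable_tV a m).add (Measurable.div ?_ (Real.measurable_exp.comp (measurable_V a m)))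
    exact Finset.measurable_fun_sum _ fun y _ => (measurable_W a m y).mul (ih _)

theorem W_rows (a : Pt) (n : ℕ) (y : ℤ) : DependsOn (fun η : Env => W μ t η a n y) (rows a.1 (a.1 + n)) := by
  intro η η' h
  refine W_dep (μ := μ) (s := t) a n y fun p hp => h p ?_
  obtain ⟨h1, h2, -⟩ := hp
  exact ⟨h1, h2⟩

theorem V_rows (a : Pt) (n : ℕ) : DependsOn (fun η : Env => V μ t η a n) (rows a.1 (a.1 + n)) := by
  intro η η' h
  refine V_dep (μ := μ) (s := t) a n fun p hp => h p ?_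
  obtain ⟨h1, h2, -⟩ := hp
  exact ⟨h1, h2⟩

theorem DD_dep (k : ℕ) : ∀ a : Pt, DependsOn (DD μ t Λ m m' k a) {p : Pt | a.1 < p.1} := by
  induction k with
  | zero =>
    intro a η η' h
    have h1 : V μ t η a m' = V μ t η' a m' := V_rows (μ := μ) (t := t) a m' fun p hp => h p hp.1
    show max (V μ t η a m') (-Λ) = max (V μ t η' a m') (-Λ)
    rw [h1]
  | succ k ih =>
    intro a η η' h
    have h1 : V μ t η a m = V μ t η' a m := V_rows (μ := μ) (t := t) a m fun p hp => h p hp.1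
    have h2 : ∀ y : ℤ, W μ t η a m y = W μ t η' a m y := fun y =>
      W_rows (μ := μ) (t := t) a m y fun p hp => h p hp.1
    have h3 : ∀ y : ℤ, DD μ t Λ m m' k (a.1 + m, a.2 + y) η = DD μ t Λ m m' k (a.1 + m, a.2 + y) η' := fun y =>
      ih (a.1 + m, a.2 + y) fun p hp => h p (by
        have hp' : a.1 + (m : ℤ) < p.1 := hp
        show a.1 < p.1
        omega)
    show max (V μ t η a m) (-Λ) + _ / _ = max (V μ t η' a m) (-Λ) + _ / _
    rw [h1]
    simp only [h2, h3]

theorem sumW (η : Env) (a : Pt) (n : ℕ) : ∑ y ∈ Finset.Icc (0 : ℤ) n, W μ t η a n y = Real.exp (V μ t η a n) := by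
  rw [exp_V]
  rfl

/-- The lower bound. -/
theorem DD_ge (hΛ : 0 ≤ Λ) (k : ℕ) : ∀ (a : Pt) (η : Env), -((k + 1) * Λ) ≤ DD μ t Λ m m' k a η := by
  induction k with
  | zero =>
    intro a η
    have : -Λ ≤ DD μ t Λ m m' 0 a η := le_max_right _ _
    push_cast
    linarith
  | succ k ih =>
    intro a η
    have h1 : -Λ ≤ tV μ t Λ η a m := le_max_right _ _
    have h2 : -((k + 1) * Λ) ≤ (∑ y ∈ Finset.Icc (0 : ℤ) m, W μ t η a m y * DD μ t Λ m m' k (a.1 + m, a.2 + y) η) /
        Real.exp (V μ t η a m) := by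
      rw [le_div_iff₀ (Real.exp_pos _), ← sumW, Finset.mul_sum]
      refine Finset.sum_le_sum fun y _ => ?_
      rw [mul_comm (-((k + 1) * Λ))]
      exact mul_le_mul_of_nonneg_left (ih _ η) (W_nonneg _ _ _ _)
    have h3 : DD μ t Λ m m' (k + 1) a η = tV μ t Λ η a m + (∑ y ∈ Finset.Icc (0 : ℤ) m,
        W μ t η a m y * DD μ t Λ m m' k (a.1 + m, a.2 + y) η) / Real.exp (V μ t η a m) := rfl
    rw [h3]
    push_cast
    linarith

/-- The free energy is at least the truncated sum, when no truncation occurs. -/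
theorem DD_le (k : ℕ) : ∀ (a : Pt) (η : Env), (∀ i : ℕ, i ≤ k → ∀ y : ℤ, 0 ≤ y → y ≤ (i * m : ℕ) →
      -Λ ≤ V μ t η (a.1 + (i * m : ℕ), a.2 + y) m ∧ -Λ ≤ V μ t η (a.1 + (i * m : ℕ), a.2 + y) m') →
    DD μ t Λ m m' k a η ≤ V μ t η a (k * m + m') := by
  induction k with
  | zero =>
    intro a η h
    have h1 := (h 0 le_rfl 0 le_rfl (by simp)).2
    have e1 : (a.1 + ((0 * m : ℕ) : ℤ), a.2 + 0) = a := by simp
    rw [e1] at h1
    show max (V μ t η a m') (-Λ) ≤ V μ t η a (0 * m + m')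
    rw [zero_mul, zero_add]
    exact max_le le_rfl h1
  | succ k ih =>
    intro a η h
    have h1 := (h 0 (Nat.zero_le _) 0 le_rfl (by simp)).1
    have e1 : (a.1 + ((0 * m : ℕ) : ℤ), a.2 + 0) = a := by simp
    rw [e1] at h1
    have h2 : tV μ t Λ η a m = V μ t η a m := max_eq_left h1
    have h3 : DD μ t Λ m m' (k + 1) a η = tV μ t Λ η a m + (∑ y ∈ Finset.Icc (0 : ℤ) m,
        W μ t η a m y * DD μ t Λ m m' k (a.1 + m, a.2 + y) η) / Real.exp (V μ t η a m) := rfl
    have h4 := V_add_jensen (μ := μ) (s := t) η a m (k * m + m')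
    have e2 : m + (k * m + m') = (k + 1) * m + m' := by ring
    rw [e2] at h4
    rw [h3, h2]
    refine le_trans (add_le_add le_rfl (div_le_div_of_nonneg_right (Finset.sum_le_sum fun y hy => ?_) (Real.exp_pos _).le)) h4
    refine mul_le_mul_of_nonneg_left (ih _ η fun i hi y' hy0 hy1 => ?_) (W_nonneg _ _ _ _)
    obtain ⟨hy2, hy3⟩ := Finset.mem_Icc.1 hy
    have h5 := h (i + 1) (by omega) (y + y') (by omega) (by
      push_cast at hy1 ⊢
      nlinarith)
    have e3 : (a.1 + (m : ℤ) + ((i * m : ℕ) : ℤ), a.2 + y + y') = (a.1 + (((i + 1) * m : ℕ) : ℤ), a.2 + (y + y')) := by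
      ext
      · push_cast
        ring
      · ring
    show -Λ ≤ V μ t η (a.1 + (m : ℤ) + ((i * m : ℕ) : ℤ), a.2 + y + y') m ∧ -Λ ≤ V μ t η (a.1 + (m : ℤ) + ((i * m : ℕ) : ℤ), a.2 + y + y') m'
    rw [e3]
    exact h5

theorem tV_moment (θ : ℝ) (a : Pt) (n : ℕ) : ∫ η, Real.exp (-(θ * tV μ t Λ η a n)) ∂(law μ) =
    ∫ η, Real.exp (-(θ * tV μ t Λ η 0 n)) ∂(law μ) := by
  have h1 := Pool.Agent.W_7d29a1_G20.sh_integral (μ := μ) (g := fun η => Real.exp (-(θ * tV μ t Λ η 0 n)))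
    (Real.measurable_exp.comp (((measurable_tV 0 n).const_mul θ).neg)) a
  rw [← h1]
  refine integral_congr_ae (Eventually.of_forall fun η => ?_)
  show _ = Real.exp (-(θ * max (V μ t (sh a η) 0 n) (-Λ)))
  rw [V_sh, zero_add]
  rfl

/-- The exponential moments multiply. -/
theorem DD_moment {θ : ℝ} (hθ : 0 ≤ θ) (hΛ : 0 ≤ Λ) (k : ℕ) : ∀ a : Pt,
    ∫ η, Real.exp (-(θ * DD μ t Λ m m' k a η)) ∂(law μ) ≤
      (∫ η, Real.exp (-(θ * tV μ t Λ η 0 m)) ∂(law μ)) ^ k * ∫ η, Real.exp (-(θ * tV μ t Λ η 0 m')) ∂(law μ) := by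
  induction k with
  | zero =>
    intro a
    rw [pow_zero, one_mul]
    exact (tV_moment θ a m').le
  | succ k ih =>
    intro a
    obtain ⟨M, hM⟩ : ∃ M : ℝ, M = (∫ η, Real.exp (-(θ * tV μ t Λ η 0 m)) ∂(law μ)) ^ k *
      ∫ η, Real.exp (-(θ * tV μ t Λ η 0 m')) ∂(law μ) := ⟨_, rfl⟩
    have hM0 : 0 ≤ M := by
      rw [hM]
      refine mul_nonneg (pow_nonneg (integral_nonneg fun _ => (Real.exp_pos _).le) _) (integral_nonneg fun _ => (Real.exp_pos _).le)
    -- the first factor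
    obtain ⟨F, hF⟩ : ∃ F : ℤ → Env → ℝ, F = fun y η => Real.exp (-(θ * tV μ t Λ η a m)) * (W μ t η a m y / Real.exp (V μ t η a m)) :=
      ⟨_, rfl⟩
    obtain ⟨G, hG⟩ : ∃ G : ℤ → Env → ℝ, G = fun y η => Real.exp (-(θ * DD μ t Λ m m' k (a.1 + m, a.2 + y) η)) := ⟨_, rfl⟩
    have hFm : ∀ y, Measurable (F y) := fun y => by
      rw [hF]
      exact (Real.measurable_exp.comp (((measurable_tV a m).const_mul θ).neg)).mul
        ((measurable_W a m y).div (Real.measurable_exp.comp (measurable_V a m)))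
    have hGm : ∀ y, Measurable (G y) := fun y => by
      rw [hG]
      exact Real.measurable_exp.comp (((measurable_DD k _).const_mul θ).neg)
    have hF0 : ∀ y η, 0 ≤ F y η := fun y η => by
      rw [hF]
      exact mul_nonneg (Real.exp_pos _).le (div_nonneg (W_nonneg _ _ _ _) (Real.exp_pos _).le)
    have hG0 : ∀ y η, 0 ≤ G y η := fun y η => by
      rw [hG]
      exact (Real.exp_pos _).le
    have hF1 : ∀ y ∈ Finset.Icc (0 : ℤ) m, ∀ η, F y η ≤ Real.exp (θ * Λ) := fun y hy η => by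
      rw [hF]
      have h1 : Real.exp (-(θ * tV μ t Λ η a m)) ≤ Real.exp (θ * Λ) := by
        refine Real.exp_le_exp.2 ?_
        have h2 : -Λ ≤ tV μ t Λ η a m := le_max_right _ _
        have := mul_le_mul_of_nonneg_left h2 hθ
        linarith
      have h2 : W μ t η a m y / Real.exp (V μ t η a m) ≤ 1 := by
        rw [div_le_one (Real.exp_pos _), ← sumW]
        exact Finset.single_le_sum (f := fun y : ℤ => W μ t η a m y) (fun _ _ => W_nonneg _ _ _ _) hy
      calc Real.exp (-(θ * tV μ t Λ η a m)) * (W μ t η a m y / Real.exp (V μ t η a m))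
          ≤ Real.exp (θ * Λ) * 1 := mul_le_mul h1 h2 (div_nonneg (W_nonneg _ _ _ _) (Real.exp_pos _).le) (Real.exp_pos _).le
        _ = _ := mul_one _
    have hG1 : ∀ y η, G y η ≤ Real.exp (θ * ((k + 1) * Λ)) := fun y η => by
      rw [hG]
      refine Real.exp_le_exp.2 ?_
      have h2 := DD_ge (μ := μ) (t := t) (m := m) (m' := m') hΛ k (a.1 + m, a.2 + y) η
      have := mul_le_mul_of_nonneg_left h2 hθ
      linarith
    have hFi : ∀ y ∈ Finset.Icc (0 : ℤ) m, Integrable (F y) (law μ) := fun y hy =>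
      Integrable.of_bound (hFm y).aestronglyMeasurable (Real.exp (θ * Λ)) (Eventually.of_forall fun η => by
        rw [Real.norm_of_nonneg (hF0 y η)]
        exact hF1 y hy η)
    have hFGi : ∀ y ∈ Finset.Icc (0 : ℤ) m, Integrable (fun η => F y η * G y η) (law μ) := fun y hy =>
      Integrable.of_bound ((hFm y).mul (hGm y)).aestronglyMeasurable (Real.exp (θ * Λ) * Real.exp (θ * ((k + 1) * Λ)))
        (Eventually.of_forall fun η => by
          rw [Real.norm_of_nonneg (mul_nonneg (hF0 y η) (hG0 y η))]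
          exact mul_le_mul (hF1 y hy η) (hG1 y η) (hG0 y η) (Real.exp_pos _).le)
    have hFd : ∀ y, DependsOn (F y) (rows a.1 (a.1 + m)) := fun y η η' hh => by
      rw [hF]
      have h1 : V μ t η a m = V μ t η' a m := V_rows (μ := μ) (t := t) a m hh
      have h2 : W μ t η a m y = W μ t η' a m y := W_rows (μ := μ) (t := t) a m y hh
      show Real.exp (-(θ * max (V μ t η a m) (-Λ))) * (W μ t η a m y / Real.exp (V μ t η a m)) =
        Real.exp (-(θ * max (V μ t η' a m) (-Λ))) * (W μ t η' a m y / Real.exp (V μ t η' a m))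
      rw [h1, h2]
    have hGd : ∀ y, DependsOn (G y) {p : Pt | a.1 + (m : ℤ) < p.1} := fun y η η' hh => by
      rw [hG]
      have h1 := DD_dep (μ := μ) (t := t) (Λ := Λ) (m := m) (m' := m') k (a.1 + m, a.2 + y) (x := η) (y := η') hh
      show Real.exp (-(θ * DD μ t Λ m m' k (a.1 + m, a.2 + y) η)) = Real.exp (-(θ * DD μ t Λ m m' k (a.1 + m, a.2 + y) η'))
      rw [h1]
    have hdis : Disjoint (rows a.1 (a.1 + m)) {p : Pt | a.1 + (m : ℤ) < p.1} := by
      rw [Set.disjoint_left]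
      intro p h1 h2
      have h3 := h1.2
      have h4 : a.1 + (m : ℤ) < p.1 := h2
      omega
    -- Jensen
    have hpt : ∀ η, Real.exp (-(θ * DD μ t Λ m m' (k + 1) a η)) ≤ ∑ y ∈ Finset.Icc (0 : ℤ) m, F y η * G y η := by
      intro η
      have h3 : DD μ t Λ m m' (k + 1) a η = tV μ t Λ η a m + (∑ y ∈ Finset.Icc (0 : ℤ) m,
        W μ t η a m y * DD μ t Λ m m' k (a.1 + m, a.2 + y) η) / Real.exp (V μ t η a m) := rfl
      have hw : ∑ y ∈ Finset.Icc (0 : ℤ) m, W μ t η a m y / Real.exp (V μ t η a m) = 1 := by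
        rw [← Finset.sum_div, sumW, div_self (Real.exp_pos _).ne']
      have hJ := convexOn_exp.map_sum_le (t := Finset.Icc (0 : ℤ) m) (w := fun y => W μ t η a m y / Real.exp (V μ t η a m))
        (p := fun y => -(θ * DD μ t Λ m m' k (a.1 + m, a.2 + y) η)) (fun y _ => div_nonneg (W_nonneg _ _ _ _) (Real.exp_pos _).le)
        hw (fun _ _ => Set.mem_univ _)
      simp only [smul_eq_mul] at hJ
      have e1 : -(θ * DD μ t Λ m m' (k + 1) a η) = -(θ * tV μ t Λ η a m) +
          ∑ y ∈ Finset.Icc (0 : ℤ) m, W μ t η a m y / Real.exp (V μ t η a m) * -(θ * DD μ t Λ m m' k (a.1 + m, a.2 + y) η) := by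
        rw [h3, Finset.sum_div, mul_add, Finset.mul_sum, neg_add, ← Finset.sum_neg_distrib]
        congr 1
        refine Finset.sum_congr rfl fun y _ => ?_
        ring
      rw [e1, Real.exp_add]
      refine (mul_le_mul_of_nonneg_left hJ (Real.exp_pos _).le).trans (le_of_eq ?_)
      rw [Finset.mul_sum, hF, hG]
      refine Finset.sum_congr rfl fun y _ => ?_
      ring
    have hsumi : Integrable (fun η => ∑ y ∈ Finset.Icc (0 : ℤ) m, F y η * G y η) (law μ) := integrable_finsetSum _ hFGi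
    have hmono : ∫ η, Real.exp (-(θ * DD μ t Λ m m' (k + 1) a η)) ∂(law μ) ≤ ∫ η, ∑ y ∈ Finset.Icc (0 : ℤ) m, F y η * G y η ∂(law μ) :=
      integral_mono_of_nonneg (Eventually.of_forall fun η => (Real.exp_pos _).le) hsumi (Eventually.of_forall hpt)
    refine hmono.trans ?_
    rw [integral_finsetSum _ hFGi]
    have h5 : ∀ y ∈ Finset.Icc (0 : ℤ) m, ∫ η, F y η * G y η ∂(law μ) ≤ (∫ η, F y η ∂(law μ)) * M := fun y _ => by
      rw [integral_indep (hFm y) (hGm y) (hFd y) (hGd y) hdis]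
      refine mul_le_mul_of_nonneg_left ?_ (integral_nonneg (hF0 y))
      rw [hM, hG]
      exact ih (a.1 + m, a.2 + y)
    refine (Finset.sum_le_sum h5).trans (le_of_eq ?_)
    rw [← Finset.sum_mul, ← integral_finsetSum _ hFi]
    have h6 : ∫ η, ∑ y ∈ Finset.Icc (0 : ℤ) m, F y η ∂(law μ) = ∫ η, Real.exp (-(θ * tV μ t Λ η 0 m)) ∂(law μ) := by
      rw [← tV_moment θ a m]
      refine integral_congr_ae (Eventually.of_forall fun η => ?_)
      show ∑ y ∈ Finset.Icc (0 : ℤ) m, F y η = Real.exp (-(θ * tV μ t Λ η a m))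
      rw [hF]
      show ∑ y ∈ Finset.Icc (0 : ℤ) m, Real.exp (-(θ * tV μ t Λ η a m)) * (W μ t η a m y / Real.exp (V μ t η a m)) = _
      rw [← Finset.mul_sum, ← Finset.sum_div, sumW, div_self (Real.exp_pos _).ne', mul_one]
    rw [h6, hM, pow_succ]
    ring

end

end Pool.Agent.W_7d29a1_Z94
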