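import Pool.Agent.W_7d29a1_Z94.TiltE

/-!
MP_7d29a1_pr, STORM Z, Lemma NS (1), TILT LLN: the lower tail (T4).
-/

namespace Pool.Agent.W_7d29a1_Z94

open MeasureTheory ProbabilityTheory Filter Topology
open Pool.Agent.W_7d29a1_F Pool.Agent.W_7d29a1_h4g Pool.Agent.W_7d29a1_G Pool.Agent.W_7d29a1_SR

noncomputable section

variable {μ : Measure ℝ} [IsProbabilityMeasure μ] {c C : ℝ} {n₀ : ℕ}

/-- The probability that a truncation occurs in one slab. -/
theorem bad_slab (h : In μ c C n₀) {c1 : ℝ} (hc1 : 0 < c1) : ∃ A a γ : ℝ, 0 < A ∧ 0 < a ∧ 0 < γ ∧ ∃ n₁ : ℕ, ∀ r : ℕ, n₁ ≤ r →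
    ∀ t : ℝ, c1 * EE μ r ≤ |t| * wd μ r → |t| * wd μ r ≤ c / 2 * EE μ r → ∀ m m' : ℕ, r ≤ m → m ≤ m' → m' ≤ 2 * m →
      ∀ Λ : ℝ, 8 ≤ Λ → ∀ b : Pt,
        (law μ).real {η | V μ t η b m' < -(Λ * (m * LL μ t))} ≤ A * Real.exp (-(a * Λ ^ γ)) := by
  obtain ⟨κ, hκ, n₂, hLL⟩ := LL_low h hc1
  obtain ⟨A, c', γ, hA, hc', hγ, -, hU⟩ := unlucky_exp h
  obtain ⟨c₃, hc₃, n₃, hwd⟩ := wd_ge h
  obtain ⟨n₄, hn₄⟩ := eventually_atTop.1 (h.tE.eventually_ge_atTop (c / (4 * c₃ * κ)))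
  have hc0 := h.c0
  refine ⟨A, c' * (κ / 8) ^ γ, γ, hA, by positivity, hγ, max (max n₂ n₃) (max n₄ 1), fun r hr t ht1 ht2 m m' hrm hmm hm2 Λ hΛ b => ?_⟩
  have hr1 : 1 ≤ r := (le_max_right _ _).trans ((le_max_right _ _).trans hr)
  have hrn2 : n₂ ≤ r := (le_max_left _ _).trans ((le_max_left _ _).trans hr)
  have hrn3 : n₃ ≤ r := (le_max_right _ _).trans ((le_max_left _ _).trans hr)
  have hrn4 : n₄ ≤ r := (le_max_left _ _).trans ((le_max_right _ _).trans hr)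
  have hr0 : (0 : ℝ) < r := by exact_mod_cast hr1
  have hm1 : 1 ≤ m := hr1.trans hrm
  have hm0 : (0 : ℝ) < m := by exact_mod_cast hm1
  have hm'1 : 1 ≤ m' := hm1.trans hmm
  have hE0 : 0 < EE μ r := EE_pos r
  have hκL := hLL r hrn2 t ht1
  have hLL0 : 0 < LL μ t := by
    have h1 : 0 < (r : ℝ) * LL μ t := lt_of_lt_of_le (by positivity) hκL
    exact (mul_pos_iff_of_pos_left hr0).1 h1
  have hmr : (1 : ℝ) ≤ m / r := by
    rw [one_le_div hr0]
    exact_mod_cast hrm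
  -- `m LL` against the unit
  have hmL : κ * ((m / r) * EE μ r) ≤ m * LL μ t := by
    have h1 := mul_le_mul_of_nonneg_left hκL (show (0 : ℝ) ≤ m / r by positivity)
    have e1 : (m : ℝ) / r * (r * LL μ t) = m * LL μ t := by
      field_simp
    rw [e1] at h1
    linarith
  have hmL0 : 0 < m * LL μ t := by positivity
  -- `|t| / 2 ≤ m LL`
  have htL : |t| / 2 ≤ m * LL μ t := by
    have h1 := hwd r hrn3
    have h2 : |t| * (c₃ * EE μ r) ≤ c / 2 * EE μ r := (mul_le_mul_of_nonneg_left h1 (abs_nonneg t)).trans ht2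
    have h3 : |t| * c₃ ≤ c / 2 := by
      have h4 : |t| * c₃ * EE μ r ≤ c / 2 * EE μ r := by linarith
      exact le_of_mul_le_mul_right h4 hE0
    have h5 : c / (4 * c₃ * κ) ≤ EE μ r := hn₄ r hrn4
    have h6 : c / 4 ≤ κ * EE μ r * c₃ := by
      rw [div_le_iff₀ (by positivity)] at h5
      linarith
    have h7 : κ * EE μ r ≤ m * LL μ t := by
      refine le_trans ?_ hmL
      have : EE μ r ≤ (m / r) * EE μ r := le_mul_of_one_le_left hE0.le hmr
      exact mul_le_mul_of_nonneg_left this hκ.le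
    have h8 : |t| / 2 * c₃ ≤ κ * EE μ r * c₃ := by linarith
    exact (le_of_mul_le_mul_right h8 hc₃).trans h7
  -- the unit of the slab
  have hEm : κ * EE μ m' ≤ 4 * (m * LL μ t) := by
    have h1 : EE μ m' ≤ (((m' / r : ℕ) : ℝ) + 1) * EE μ r := by
      have h2 : m' ≤ (m' / r + 1) * r := by
        have h1 := Nat.lt_mul_div_succ m' (by omega : 0 < r)
        rw [mul_comm]
        exact h1.le
      have h3 := EE_mul (μ := μ) h.em (m' / r + 1) r (Nat.le_add_left 1 _)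
      push_cast at h3
      exact (EE_mono h2).trans h3
    have h2 : ((m' / r : ℕ) : ℝ) + 1 ≤ 4 * (m / r) := by
      have h3 : ((m' / r : ℕ) : ℝ) ≤ (m' : ℝ) / r := Nat.cast_div_le
      have h4 : (m' : ℝ) / r ≤ 2 * (m / r) := by
        rw [← mul_div_assoc]
        refine div_le_div_of_nonneg_right ?_ hr0.le
        exact_mod_cast hm2
      linarith
    have h3 : EE μ m' ≤ 4 * (m / r) * EE μ r := h1.trans (mul_le_mul_of_nonneg_right h2 hE0.le)
    have h4 := mul_le_mul_of_nonneg_left h3 hκ.le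
    linarith
  have hEm0 : 0 < EE μ m' := EE_pos m'
  obtain ⟨u, hu⟩ : ∃ u : ℝ, u = κ / 8 * Λ := ⟨_, rfl⟩
  have hu0 : 0 ≤ u := by
    rw [hu]
    positivity
  have hsub : {η | V μ t η 0 m' < -(Λ * (m * LL μ t))} ⊆ {η | u * EE μ m' ≤ X μ 0 η 0 m' (md m')} := by
    intro η hη
    have h1 : V μ t η 0 m' < -(Λ * (m * LL μ t)) := hη
    have h2 := V_tilt_ge (μ := μ) t η m'
    show u * EE μ m' ≤ X μ 0 η 0 m' (md m')
    have h3 : (m' : ℝ) * LL μ t ≤ 2 * (m * LL μ t) := by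
      have : (m' : ℝ) ≤ 2 * m := by exact_mod_cast hm2
      have h4 := mul_le_mul_of_nonneg_right this hLL0.le
      linarith
    have h4 : u * EE μ m' ≤ Λ * (m * LL μ t) / 2 := by
      rw [hu]
      have := mul_le_mul_of_nonneg_left hEm (show (0 : ℝ) ≤ Λ / 8 by linarith)
      linarith
    have h5 : 8 * (m * LL μ t) ≤ Λ * (m * LL μ t) := mul_le_mul_of_nonneg_right hΛ hmL0.le
    linarith
  have hsh : (law μ).real {η | V μ t η b m' < -(Λ * (m * LL μ t))} = (law μ).real {η | V μ t η 0 m' < -(Λ * (m * LL μ t))} := by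
    have hmeas : MeasurableSet {η : Env | V μ t η 0 m' < -(Λ * (m * LL μ t))} :=
      measurableSet_lt (measurable_V 0 m') measurable_const
    rw [← real_sh (μ := μ) b hmeas]
    congr 1
    ext η
    show V μ t η b m' < _ ↔ V μ t (sh b η) 0 m' < _
    rw [V_sh, zero_add]
  rw [hsh]
  have hvp := vA_pos (μ := μ) h.em (A := 1) one_pos m'
  have hcone : |((md m' : ℤ) : ℝ) - m' / 2| ≤ c / 16 * vA μ 1 m' * m' + 1 := by
    have h3 : 2 * md m' ≤ (m' : ℤ) ∧ (m' : ℤ) - 1 ≤ 2 * md m' := by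
      unfold md
      constructor <;> omega
    have h4 : 2 * ((md m' : ℤ) : ℝ) ≤ (m' : ℝ) := by exact_mod_cast h3.1
    have h5 : (m' : ℝ) - 1 ≤ 2 * ((md m' : ℤ) : ℝ) := by exact_mod_cast h3.2
    have h6 : 0 ≤ c / 16 * vA μ 1 m' * m' := by positivity
    rw [abs_le]
    constructor <;> linarith
  have h1 := hU m' hm'1 (md m') (md_nonneg m') (md_le m') hcone u hu0
  refine (measureReal_mono hsub).trans (h1.trans (le_of_eq ?_))
  rw [hu, Real.mul_rpow (by positivity) (by linarith)]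
  ring_nf

/-- (T4) THE LOWER TAIL of a tilted free energy beyond the scale of the tilt. -/
theorem low_tilt (h : In μ c C n₀) {q K : ℝ} {n₁ : ℕ} (hq0 : 0 < q) (hq1 : q < 1) (hK : 0 ≤ K) (hT : PsiT μ c C q K n₁)
    {d c1 : ℝ} (hd : 0 < d) (hc1 : 0 < c1) : ∃ Q A a γ : ℝ, 2 ≤ Q ∧ 0 < A ∧ 0 < a ∧ 0 < γ ∧ ∃ n₂ : ℕ, ∀ r : ℕ, n₂ ≤ r → ∀ t : ℝ,
    c1 * EE μ r ≤ |t| * wd μ r → |t| * wd μ r ≤ c / 2 * EE μ r → ∀ m n : ℕ, Q * (r * Real.log (m + 1)) ≤ m → m ≤ n → 1 ≤ m →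
      ∀ Λ : ℝ, 8 ≤ Λ → (law μ).real {η | V μ t η 0 n ≤ -(d * (n * LL μ t))} ≤
        Real.exp (-(d * n / (2 * m * Λ))) + (n + 1) ^ 2 * (A * Real.exp (-(a * Λ ^ γ))) := by
  obtain ⟨κ, hκ, n₃, hLL⟩ := LL_low h hc1
  obtain ⟨B, hB, hsec⟩ := second_moment h hT
  obtain ⟨A, a, γ, hA, ha, hγ, n₄, hbad⟩ := bad_slab h hc1
  obtain ⟨Q₀, hQ₀, n₅, hmean⟩ := mean_conv h hq0 hq1 hK hT (d := min d 1 / 12) (by positivity) hc1
  obtain ⟨δ, hδ⟩ : ∃ δ : ℝ, δ = min d 1 / 12 := ⟨_, rfl⟩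
  have hδ0 : 0 < δ := by
    rw [hδ]
    positivity
  have hδd : 12 * δ ≤ d := by
    rw [hδ]
    linarith [min_le_left d 1]
  have hδ1 : 12 * δ ≤ 1 := by
    rw [hδ]
    linarith [min_le_right d 1]
  rw [← hδ] at hmean
  obtain ⟨Q, hQ⟩ : ∃ Q : ℝ, Q = max (2 * Q₀) (2 * (4 * B / (κ ^ 2 * δ))) := ⟨_, rfl⟩
  have hQ1 : 2 * Q₀ ≤ Q := hQ ▸ le_max_left _ _
  have hQ2 : 2 * (4 * B / (κ ^ 2 * δ)) ≤ Q := hQ ▸ le_max_right _ _
  refine ⟨Q, 2 * A, a, γ, by linarith, by positivity, ha, hγ, max (max n₁ n₃) (max n₄ (max n₅ 1)),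
    fun r hr t ht1 ht2 m n hm hmn hm1 Λ hΛ => ?_⟩
  have hrn1 : n₁ ≤ r := (le_max_left _ _).trans ((le_max_left _ _).trans hr)
  have hrn3 : n₃ ≤ r := (le_max_right _ _).trans ((le_max_left _ _).trans hr)
  have hrn4 : n₄ ≤ r := (le_max_left _ _).trans ((le_max_right _ _).trans hr)
  have hrn5 : n₅ ≤ r := (le_max_left _ _).trans ((le_max_right _ _).trans ((le_max_right _ _).trans hr))
  have hr1 : 1 ≤ r := (le_max_right _ _).trans ((le_max_right _ _).trans ((le_max_right _ _).trans hr))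
  have hr0 : (0 : ℝ) < r := by exact_mod_cast hr1
  have hm0 : (0 : ℝ) < m := by exact_mod_cast hm1
  have hE0 : 0 < EE μ r := EE_pos r
  have hκL := hLL r hrn3 t ht1
  have hLL0 : 0 < LL μ t := by
    have h1 : 0 < (r : ℝ) * LL μ t := lt_of_lt_of_le (by positivity) hκL
    exact (mul_pos_iff_of_pos_left hr0).1 h1
  have hl2 : 1 / 2 < Real.log 2 := by
    have := Real.log_two_gt_d9
    linarith
  have hlm : 1 / 2 ≤ Real.log (m + 1) := by
    have : Real.log 2 ≤ Real.log (m + 1) := by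
      refine Real.log_le_log (by norm_num) ?_
      have : (1 : ℝ) ≤ m := by exact_mod_cast hm1
      linarith
    linarith
  -- `m` is long against `r`
  have hmQ : Q / 2 * r ≤ m := by
    have h1 : Q * (r * (1 / 2)) ≤ Q * (r * Real.log (m + 1)) :=
      mul_le_mul_of_nonneg_left (mul_le_mul_of_nonneg_left hlm hr0.le) (by linarith)
    linarith
  have hrm : r ≤ m := by
    have h1 : (r : ℝ) ≤ m := by
      have h2 : 1 * (r : ℝ) ≤ Q / 2 * r := mul_le_mul_of_nonneg_right (by linarith) hr0.le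
      linarith
    exact_mod_cast h1
  have hB2 : 4 * B / (κ ^ 2 * δ) * r ≤ m := by
    have h1 : 4 * B / (κ ^ 2 * δ) * r ≤ Q / 2 * r := mul_le_mul_of_nonneg_right (by linarith) hr0.le
    linarith
  -- the slabs
  obtain ⟨k, hk⟩ : ∃ k : ℕ, k = n / m - 1 := ⟨_, rfl⟩
  obtain ⟨m', hm'⟩ : ∃ m' : ℕ, m' = m + n % m := ⟨_, rfl⟩
  have hdm : 1 ≤ n / m := (Nat.one_le_div_iff (by omega)).2 hmn
  have hkn : k * m + m' = n := by
    have h1 := Nat.div_add_mod n m
    have h2 : n / m = k + 1 := by omega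
    rw [h2] at h1
    rw [hm']
    have h3 : m * (k + 1) = k * m + m := by ring
    omega
  have hmm : m ≤ m' := by omega
  have hm2 : m' ≤ 2 * m := by
    have := Nat.mod_lt n (by omega : 0 < m)
    omega
  have hmL0 : 0 < m * LL μ t := by positivity
  obtain ⟨Λ', hΛ'⟩ : ∃ Λ' : ℝ, Λ' = Λ * (m * LL μ t) := ⟨_, rfl⟩
  have hΛ0 : 0 < Λ' := by
    rw [hΛ']
    positivity
  obtain ⟨θ, hθ⟩ : ∃ θ : ℝ, θ = 1 / Λ' := ⟨_, rfl⟩
  have hθ0 : 0 < θ := by
    rw [hθ]
    positivity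
  have hθΛ : θ * Λ' = 1 := by
    rw [hθ]
    field_simp
  -- the moment of one slab
  have hone : ∀ l : ℕ, m ≤ l → l ≤ 2 * m → ∫ η, Real.exp (-(θ * tV μ t Λ' η 0 l)) ∂(law μ) ≤ Real.exp (θ * (3 * δ * (l * LL μ t))) := by
    intro l hl1 hl2
    refine (tV_mom_le h.em hθ0.le hΛ0.le hθΛ.le l).trans (Real.exp_le_exp.2 ?_)
    have hlR : (m : ℝ) ≤ l := by exact_mod_cast hl1
    have hlR2 : (l : ℝ) ≤ 2 * m := by exact_mod_cast hl2
    have hl0 : (0 : ℝ) < l := by linarith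
    have hlL0 : 0 < l * LL μ t := by positivity
    have hlL : (l : ℝ) * LL μ t ≤ Λ' := by
      rw [hΛ']
      have h1 := mul_le_mul_of_nonneg_right hlR2 hLL0.le
      have h2 : 8 * (m * LL μ t) ≤ Λ * (m * LL μ t) := mul_le_mul_of_nonneg_right hΛ hmL0.le
      linarith
    have hb0 := bt_nonneg (μ := μ) h t l
    have hb : bt μ t l ≤ δ * (l * LL μ t) := by
      refine hmean r hrn5 t ht1 ht2 l ?_
      have h1 : Real.log ((l : ℝ) + 1) ≤ 2 * Real.log (m + 1) := by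
        have e2 : 2 * Real.log ((m : ℝ) + 1) = Real.log (((m : ℝ) + 1) ^ 2) := by
          rw [Real.log_pow]
          push_cast
          ring
        rw [e2]
        refine Real.log_le_log (by positivity) ?_
        have e3 : ((m : ℝ) + 1) ^ 2 = (m : ℝ) ^ 2 + 2 * m + 1 := by ring
        rw [e3]
        have := sq_nonneg (m : ℝ)
        linarith
      have h2 : Q₀ * (r * Real.log (l + 1)) ≤ Q₀ * (r * (2 * Real.log (m + 1))) :=
        mul_le_mul_of_nonneg_left (mul_le_mul_of_nonneg_left h1 hr0.le) (by linarith)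
      have h3 : 2 * Q₀ * (r * Real.log (m + 1)) ≤ Q * (r * Real.log (m + 1)) :=
        mul_le_mul_of_nonneg_right hQ1 (by positivity)
      linarith
    have hs := hsec r hrn1 t ht2 l
    have hN : ((l / r : ℕ) : ℝ) + 1 ≤ 2 * (l / r) := by
      have h3 : ((l / r : ℕ) : ℝ) ≤ (l : ℝ) / r := Nat.cast_div_le
      have h4 : (1 : ℝ) ≤ (l : ℝ) / r := by
        rw [one_le_div hr0]
        have : (r : ℝ) ≤ m := by exact_mod_cast hrm
        linarith
      linarith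
    have h1 : θ ^ 2 * bt μ t l ^ 2 ≤ θ * bt μ t l := by
      have h2 : θ * bt μ t l ≤ 1 := by
        have h3 : bt μ t l ≤ Λ' := by
          have : δ * (l * LL μ t) ≤ 1 * (l * LL μ t) := mul_le_mul_of_nonneg_right (by linarith) hlL0.le
          linarith
        calc θ * bt μ t l ≤ θ * Λ' := mul_le_mul_of_nonneg_left h3 hθ0.le
          _ = 1 := hθΛ
      have h4 : 0 ≤ θ * bt μ t l := by positivity
      calc θ ^ 2 * bt μ t l ^ 2 = θ * bt μ t l * (θ * bt μ t l) := by ring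
        _ ≤ θ * bt μ t l * 1 := mul_le_mul_of_nonneg_left h2 h4
        _ = _ := mul_one _
    have h2 : θ ^ 2 * (B * (((l / r : ℕ) : ℝ) + 1) * EE μ r ^ 2) ≤ θ * (δ * (l * LL μ t)) := by
      have h3 : B * (((l / r : ℕ) : ℝ) + 1) * EE μ r ^ 2 ≤ B * (2 * (l / r)) * EE μ r ^ 2 :=
        mul_le_mul_of_nonneg_right (mul_le_mul_of_nonneg_left hN hB.le) (by positivity)
      have h4 : θ * (B * (2 * (l / r)) * EE μ r ^ 2) ≤ δ * (l * LL μ t) := by
        -- multiply by `Λ'`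
        rw [hθ, one_div, inv_mul_le_iff₀ hΛ0]
        -- `κ EE r ≤ r LL`
        have h5 : κ ^ 2 * EE μ r ^ 2 ≤ r ^ 2 * LL μ t ^ 2 := by
          have := mul_self_le_mul_self (by positivity) hκL
          calc κ ^ 2 * EE μ r ^ 2 = κ * EE μ r * (κ * EE μ r) := by ring
            _ ≤ r * LL μ t * (r * LL μ t) := this
            _ = _ := by ring
        have h6 : 4 * B * r ≤ κ ^ 2 * δ * m := by
          have h7 : 4 * B / (κ ^ 2 * δ) * r * (κ ^ 2 * δ) ≤ m * (κ ^ 2 * δ) := mul_le_mul_of_nonneg_right hB2 (by positivity)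
          have e7 : 4 * B / (κ ^ 2 * δ) * r * (κ ^ 2 * δ) = 4 * B * r := by
            field_simp
          rw [e7] at h7
          linarith
        have h8 : B * (2 * (l / r)) * EE μ r ^ 2 ≤ 1 / 2 * (δ * (l * LL μ t) * (m * LL μ t)) := by
          have e9 : B * (2 * (l / r)) * EE μ r ^ 2 = (2 * B * EE μ r ^ 2 / r) * l := by ring
          rw [e9]
          have h9 : 2 * B * EE μ r ^ 2 / r ≤ 1 / 2 * (δ * LL μ t * (m * LL μ t)) := by
            rw [div_le_iff₀ hr0]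
            have h10 : 4 * B * r * (EE μ r ^ 2 * κ ^ 2) ≤ κ ^ 2 * δ * m * (r ^ 2 * LL μ t ^ 2) :=
              mul_le_mul h6 (by linarith) (by positivity) (by positivity)
            have h11 : (4 * B * EE μ r ^ 2) * (r * κ ^ 2) ≤ (δ * LL μ t * (m * LL μ t) * r) * (r * κ ^ 2) := by
              calc (4 * B * EE μ r ^ 2) * (r * κ ^ 2) = 4 * B * r * (EE μ r ^ 2 * κ ^ 2) := by ring
                _ ≤ κ ^ 2 * δ * m * (r ^ 2 * LL μ t ^ 2) := h10
                _ = _ := by ring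
            have h12 := le_of_mul_le_mul_right h11 (by positivity)
            linarith
          calc (2 * B * EE μ r ^ 2 / r) * l ≤ (1 / 2 * (δ * LL μ t * (m * LL μ t))) * l := mul_le_mul_of_nonneg_right h9 hl0.le
            _ = _ := by ring
        have h13 : 1 / 2 * (δ * (l * LL μ t) * (m * LL μ t)) ≤ Λ' * (δ * (l * LL μ t)) := by
          rw [hΛ']
          have h14 : 0 ≤ δ * (l * LL μ t) * (m * LL μ t) := by positivity
          have h17 := mul_le_mul_of_nonneg_right (show (1 / 2 : ℝ) ≤ Λ by linarith) h14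
          linarith
        linarith
      have h15 := mul_le_mul_of_nonneg_left h3 (show (0 : ℝ) ≤ θ ^ 2 by positivity)
      have h16 := mul_le_mul_of_nonneg_left h4 hθ0.le
      calc θ ^ 2 * (B * (((l / r : ℕ) : ℝ) + 1) * EE μ r ^ 2) ≤ θ ^ 2 * (B * (2 * (l / r)) * EE μ r ^ 2) := h15
        _ = θ * (θ * (B * (2 * (l / r)) * EE μ r ^ 2)) := by ring
        _ ≤ _ := h16
    have h3 := mul_le_mul_of_nonneg_left hs (show (0 : ℝ) ≤ θ ^ 2 by positivity)
    have h4 := mul_le_mul_of_nonneg_left hb hθ0.le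
    linarith
  -- the sum
  have hmom := DD_moment (μ := μ) (t := t) (Λ := Λ') (m := m) (m' := m') hθ0.le hΛ0.le k 0
  have hsum : ∫ η, Real.exp (-(θ * DD μ t Λ' m m' k 0 η)) ∂(law μ) ≤ Real.exp (θ * (3 * δ * (n * LL μ t))) := by
    refine hmom.trans ?_
    have h1 := hone m le_rfl (by omega)
    have h2 := hone m' hmm hm2
    have h3 : (∫ η, Real.exp (-(θ * tV μ t Λ' η 0 m)) ∂(law μ)) ^ k ≤ Real.exp (θ * (3 * δ * (m * LL μ t))) ^ k :=
      pow_le_pow_left₀ (integral_nonneg fun _ => (Real.exp_pos _).le) h1 k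
    refine (mul_le_mul h3 h2 (integral_nonneg fun _ => (Real.exp_pos _).le) (by positivity)).trans (le_of_eq ?_)
    rw [← Real.exp_nat_mul, ← Real.exp_add, ← hkn]
    congr 1
    push_cast
    ring
  -- the event
  obtain ⟨x, hx⟩ : ∃ x : ℝ, x = d * (n * LL μ t) := ⟨_, rfl⟩
  obtain ⟨I, hI⟩ : ∃ I : Finset (ℕ × ℤ), I = (Finset.range (k + 1)) ×ˢ (Finset.Icc (0 : ℤ) (k * m : ℕ)) := ⟨_, rfl⟩
  obtain ⟨S, hS⟩ : ∃ S : ℕ × ℤ → Set Env, S = fun p => {η | V μ t η ((p.1 * m : ℕ), p.2) m < -(Λ * (m * LL μ t))} ∪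
    {η | V μ t η ((p.1 * m : ℕ), p.2) m' < -(Λ * (m * LL μ t))} := ⟨_, rfl⟩
  have hincl : {η | V μ t η 0 n ≤ -(d * (n * LL μ t))} ⊆ {η | DD μ t Λ' m m' k 0 η ≤ -x} ∪ ⋃ p ∈ I, S p := by
    intro η hη
    by_contra hcon
    rw [Set.mem_union, not_or] at hcon
    obtain ⟨h1, h2⟩ := hcon
    refine h1 ?_
    have h3 : DD μ t Λ' m m' k 0 η ≤ V μ t η 0 (k * m + m') := by
      refine DD_le k 0 η fun i hi y hy0 hy1 => ?_
      have h4 : η ∉ S (i, y) := fun h5 => h2 (by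
        refine Set.mem_biUnion (x := (i, y)) ?_ h5
        rw [hI]
        refine Finset.mem_coe.2 (Finset.mem_product.2 ⟨Finset.mem_range.2 (by omega), Finset.mem_Icc.2 ⟨hy0, ?_⟩⟩)
        refine hy1.trans ?_
        have : i * m ≤ k * m := Nat.mul_le_mul_right m hi
        exact_mod_cast this)
      rw [hS] at h4
      simp only [Set.mem_union, Set.mem_ofPred_eq, not_or, not_lt] at h4
      rw [hΛ']
      have e1 : ((0 : Pt).1 + ((i * m : ℕ) : ℤ), (0 : Pt).2 + y) = (((i * m : ℕ) : ℤ), y) := by simp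
      rw [e1]
      exact h4
    rw [hkn] at h3
    have h6 : V μ t η 0 n ≤ -(d * (n * LL μ t)) := hη
    show DD μ t Λ' m m' k 0 η ≤ -x
    rw [hx]
    linarith
  have hfirst : (law μ).real {η | DD μ t Λ' m m' k 0 η ≤ -x} ≤ Real.exp (-(d * n / (2 * m * Λ))) := by
    have hint : Integrable (fun η => Real.exp (-(θ * DD μ t Λ' m m' k 0 η))) (law μ) := by
      refine Integrable.of_bound (Real.measurable_exp.comp (((measurable_DD k 0).const_mul θ).neg)).aestronglyMeasurable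
        (Real.exp (θ * ((k + 1) * Λ'))) (Eventually.of_forall fun η => ?_)
      rw [Real.norm_of_nonneg (Real.exp_pos _).le]
      refine Real.exp_le_exp.2 ?_
      have h2 := DD_ge (μ := μ) (t := t) (m := m) (m' := m') hΛ0.le k 0 η
      have := mul_le_mul_of_nonneg_left h2 hθ0.le
      linarith
    have h1 := mul_meas_ge_le_integral_of_nonneg (μ := law μ) (Eventually.of_forall fun η => (Real.exp_pos _).le) hint
      (Real.exp (θ * x))
    have h2 : {η | DD μ t Λ' m m' k 0 η ≤ -x} = {η | Real.exp (θ * x) ≤ Real.exp (-(θ * DD μ t Λ' m m' k 0 η))} := by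
      ext η
      rw [Set.mem_ofPred_eq, Set.mem_ofPred_eq, Real.exp_le_exp]
      constructor
      · intro h3
        have := mul_le_mul_of_nonneg_left h3 hθ0.le
        linarith
      · intro h3
        have h4 : θ * DD μ t Λ' m m' k 0 η ≤ θ * -x := by linarith
        exact le_of_mul_le_mul_left h4 hθ0
    rw [h2]
    have h3 : (law μ).real {η | Real.exp (θ * x) ≤ Real.exp (-(θ * DD μ t Λ' m m' k 0 η))} ≤
        Real.exp (θ * (3 * δ * (n * LL μ t))) * Real.exp (-(θ * x)) := by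
      rw [Real.exp_neg, ← div_eq_mul_inv, le_div_iff₀ (Real.exp_pos _), mul_comm]
      exact h1.trans hsum
    refine h3.trans ?_
    rw [← Real.exp_add]
    refine Real.exp_le_exp.2 ?_
    have hnL0 : 0 ≤ n * LL μ t := by positivity
    have e1 : d * n / (2 * m * Λ) = θ * (d / 2 * (n * LL μ t)) := by
      rw [hθ, hΛ']
      field_simp
    rw [e1, hx]
    have h5 : 3 * δ * (n * LL μ t) ≤ d / 2 * (n * LL μ t) := mul_le_mul_of_nonneg_right (by linarith) hnL0
    have h6 := mul_le_mul_of_nonneg_left h5 hθ0.le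
    linarith
  have hS1 : ∀ p, (law μ).real (S p) ≤ 2 * (A * Real.exp (-(a * Λ ^ γ))) := by
    intro p
    rw [hS]
    refine (measureReal_union_le _ _).trans ?_
    have h1 := hbad r hrn4 t ht1 ht2 m m hrm le_rfl (by omega) Λ hΛ (((p.1 * m : ℕ) : ℤ), p.2)
    have h2 := hbad r hrn4 t ht1 ht2 m m' hrm hmm hm2 Λ hΛ (((p.1 * m : ℕ) : ℤ), p.2)
    linarith
  have hcard : (I.card : ℝ) ≤ (n + 1) ^ 2 := by
    rw [hI, Finset.card_product, Finset.card_range, Int.card_Icc]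
    have h1 : k + 1 ≤ n + 1 := by
      have : k ≤ k * m := Nat.le_mul_of_pos_right k (by omega)
      omega
    have h2 : (((k * m : ℕ) : ℤ) + 1 - 0).toNat ≤ n + 1 := by omega
    have h3 := Nat.mul_le_mul h1 h2
    have h4 : ((k + 1) * ((((k * m : ℕ) : ℤ) + 1 - 0).toNat) : ℕ) ≤ ((n + 1) ^ 2 : ℕ) := by
      rw [sq]
      exact h3
    exact_mod_cast h4
  have hsec2 : (law μ).real (⋃ p ∈ I, S p) ≤ (n + 1) ^ 2 * (2 * A * Real.exp (-(a * Λ ^ γ))) := by
    refine (measureReal_biUnion_finset_le I S).trans ?_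
    refine (Finset.sum_le_sum fun p _ => hS1 p).trans ?_
    rw [Finset.sum_const, nsmul_eq_mul]
    have h1 : 0 ≤ 2 * (A * Real.exp (-(a * Λ ^ γ))) := by positivity
    have h2 := mul_le_mul_of_nonneg_right hcard h1
    linarith
  refine (measureReal_mono hincl).trans ((measureReal_union_le _ _).trans (add_le_add hfirst hsec2))

end

end Pool.Agent.W_7d29a1_Z94
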